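import Pool.Agent.N288.TFD4

/-!
# Neutral Thomas-Fermi theory: `3X - 2K` is not weakly superadditive

Four nuclei at `0, q, εq, (1+ε)q` with `|q| = 1` and `ε` small; the two groups are the congruent
pairs `{0, q}` and `{εq, (1+ε)q}` with equal charges `c`.
-/

set_option autoImplicit false

open MeasureTheory Set Filter Topology Metric
open scoped ENNReal

namespace Pool.Agent.Results.MP_f2f621_mp.NotWSA

/-- Three dimensional Euclidean space. -/
abbrev R3 := EuclideanSpace ℝ (Fin 3)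

/-- `ρ ≥ 0` and `ρ ∈ L¹ ∩ L^{5/3}`. -/
structure Density (ρ : R3 → ℝ) : Prop where
  nonneg : ∀ x, 0 ≤ ρ x
  integrable : Integrable ρ
  integrable_rpow : Integrable (fun x => ρ x ^ (5/3 : ℝ))

variable {k : ℕ}

/-- The Thomas-Fermi functional `ξ(ρ)` of the configuration with nuclear charges `z` and nuclear
positions `R`, the nuclear repulsion `U` included. -/
noncomputable def xi (R : Fin k → R3) (z : Fin k → ℝ) (ρ : R3 → ℝ) : ℝ :=
  3/5 * (∫ x, ρ x ^ (5/3 : ℝ)) - (∫ x, (∑ j, z j / ‖x - R j‖) * ρ x) +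
    1/2 * (∫ x, ∫ y, ρ x * ρ y / ‖x - y‖) +
    ∑ i, ∑ j ∈ Finset.univ.filter (fun j => i < j), z i * z j / ‖R i - R j‖

/-- `ρ` minimises `ξ` among the densities of total charge `∑ z` (neutral case). -/
def Minimiser (R : Fin k → R3) (z : Fin k → ℝ) (ρ : R3 → ℝ) : Prop :=
  Density ρ ∧ ∫ x, ρ x = ∑ j, z j ∧
    ∀ σ : R3 → ℝ, Density σ → ∫ x, σ x = ∑ j, z j → xi R z ρ ≤ xi R z σ

open Classical in
/-- The kinetic energy `K(z) = (3/5) ∫ ρ^{5/3}` of the neutral minimiser (for `z ≥ 0` it exists and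
the value does not depend on the choice of the minimiser: first part of `result`). -/
noncomputable def K (R : Fin k → R3) (z : Fin k → ℝ) : ℝ :=
  if h : ∃ ρ, Minimiser R z ρ then 3/5 * ∫ x, h.choose x ^ (5/3 : ℝ) else 0

/-- The closed orthant `ℝ_+^k`. -/
def orthant (k : ℕ) : Set (Fin k → ℝ) := {z | ∀ i, 0 ≤ z i}

/-- The value `3 (3K - d) - 2K`, which is `X̃(z) = 3X(z) - 2K(z)` if `d = ∑ z_i K_i(z)`. -/
noncomputable def Xt (R : Fin k → R3) (z : Fin k → ℝ) (d : ℝ) : ℝ :=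
  3 * (3 * K R z - d) - 2 * K R z

/-- `d` is `∑ z_i K_i(z)`: the derivative of `t ↦ K(t z)` at `t = 1` exists and equals `d`, and
`L z = d` for every derivative `L` of `K` at `z` within `ℝ_+^k`. -/
def Euler (R : Fin k → R3) (z : Fin k → ℝ) (d : ℝ) : Prop :=
  HasDerivAt (fun t : ℝ => K R (t • z)) d 1 ∧
  ∀ L : (Fin k → ℝ) →L[ℝ] ℝ, HasFDerivWithinAt (K R) L (orthant k) z → L z = d

/-- `X̃ = 3X - 2K` with `X = 3K - ∑ z_i K_i`, the derivative of `K` taken within `ℝ_+^k`. -/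
noncomputable def Xtilde (R : Fin k → R3) (z : Fin k → ℝ) : ℝ :=
  Xt R z (fderivWithin ℝ (K R) (orthant k) z z)

/-- Weak superadditivity on `ℝ_+^k`. -/
def WSA (f : (Fin k → ℝ) → ℝ) : Prop :=
  ∀ z1 ∈ orthant k, ∀ z2 ∈ orthant k, (∀ i, z1 i * z2 i = 0) → f z1 + f z2 ≤ f (z1 + z2)

/-- The positions `0, q, εq, (1+ε)q`. -/
noncomputable def Rc (ε : ℝ) (q : R3) : Fin 4 → R3 := ![0, q, ε • q, (1 + ε) • q]

open Pool.Agent.TH791.Cl Pool.Agent.R999.MinP Pool.Agent.R999.Ex Pool.Agent.N288.TFD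

lemma UU_lt (z : Fin k → ℝ) (R : Fin k → R3) :
    UU z R = ∑ i, ∑ j ∈ Finset.univ.filter (fun j => i < j), z i * z j / ‖R i - R j‖ := by
  classical
  set F : Fin k → Fin k → ℝ := fun i j => z i * z j / ‖R i - R j‖ with hF
  have hsymm : ∀ i j, F i j = F j i := fun i j => by
    simp only [hF]; rw [norm_sub_rev, mul_comm]
  have hdiag : ∀ i, F i i = 0 := fun i => by simp [hF]
  have h1 : ∀ i, ∑ j, F i j = (∑ j ∈ Finset.univ.filter (fun j => i < j), F i j) +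
      ∑ j ∈ Finset.univ.filter (fun j => j < i), F i j := by
    intro i
    rw [Finset.sum_filter, Finset.sum_filter, ← Finset.sum_add_distrib]
    refine Finset.sum_congr rfl fun j _ => ?_
    rcases lt_trichotomy i j with h | h | h
    · rw [if_pos h, if_neg (not_lt.2 h.le), add_zero]
    · subst h; simp [hdiag]
    · rw [if_neg (not_lt.2 h.le), if_pos h, zero_add]
  have h2 : ∑ i, ∑ j ∈ Finset.univ.filter (fun j => j < i), F i j =
      ∑ i, ∑ j ∈ Finset.univ.filter (fun j => i < j), F i j := by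
    simp only [Finset.sum_filter]
    rw [Finset.sum_comm]
    refine Finset.sum_congr rfl fun i _ => Finset.sum_congr rfl fun j _ => ?_
    split_ifs
    · exact hsymm _ _
    · rfl
  unfold UU
  change 1/2 * ∑ i, ∑ j, F i j = ∑ i, ∑ j ∈ Finset.univ.filter (fun j => i < j), F i j
  rw [Finset.sum_congr rfl fun i _ => h1 i, Finset.sum_add_distrib, h2]
  ring

lemma xi_eq (z : Fin k → ℝ) (R : Fin k → R3) (ρ : R3 → ℝ) :
    xi R z ρ = Pool.Agent.R999.TFMin.energy 1 (Vn z R) ρ + UU z R := by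
  rw [UU_lt]
  unfold xi Pool.Agent.R999.TFMin.energy Vn
  ring

lemma min_of_tfs {z : Fin k → ℝ} {R : Fin k → R3} {ρ : R3 → ℝ} (h : TFs 1 z R ρ) :
    Minimiser R z ρ := by
  refine ⟨⟨h.md.nonneg, h.md.int, h.md.int_pow⟩, h.mass, fun σ hσ hm => ?_⟩
  have h1 := (least one_pos h).2 ⟨σ, ⟨hσ.1, hσ.2, hσ.3⟩, hm, rfl⟩
  rw [xi_eq, xi_eq, energy_eq 1 z R h.md.nice]
  exact h1

lemma min_unique {z : Fin k → ℝ} {R : Fin k → R3} {ρ : R3 → ℝ} (h : TFs 1 z R ρ)
    {ρ' : R3 → ℝ} (h' : Minimiser R z ρ') : ρ' =ᵐ[volume] ρ := by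
  obtain ⟨⟨a1, a2, a3⟩, hm, hmin⟩ := h'
  obtain ⟨g, hg, hge⟩ := dens_md (ρ := ρ') ⟨a1, a2, a3⟩
  have h1 := hmin ρ ⟨h.md.nonneg, h.md.int, h.md.int_pow⟩ h.mass
  rw [xi_eq, xi_eq, energy_congr hge, energy_eq 1 z R hg.nice, energy_eq 1 z R h.md.nice] at h1
  have h2 := h.breg hg
  have h3 := coul_nonneg (nice_sub hg.nice h.md.nice)
  have h4 : 0 ≤ ∫ x, bg (ρ x) (g x) :=
    integral_nonneg fun x => bg_nonneg (h.md.nonneg x) (hg.nonneg x)
  have h5 : ∫ x, bg (ρ x) (g x) = 0 := by linarith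
  have h6 := (integral_eq_zero_iff_of_nonneg
    (fun x => bg_nonneg (h.md.nonneg x) (hg.nonneg x)) (bg_int h.md hg)).1 h5
  filter_upwards [hge, h6] with x hx hx2
  rw [hx]
  refine (Pool.Agent.R999.TFMin.tangent_le (hg.nonneg x) (h.md.nonneg x)).2 ?_
  have : bg (ρ x) (g x) = 0 := hx2
  unfold bg at this
  linarith

lemma K_of_min {z : Fin k → ℝ} {R : Fin k → R3} (hz : ∀ j, 0 ≤ z j) {ρ' : R3 → ℝ}
    (h' : Minimiser R z ρ') : 3/5 * ∫ x, ρ' x ^ (5/3 : ℝ) = kf z R 1 := by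
  have T := sol_spec one_pos hz R
  have h := min_unique T h'
  unfold kf
  congr 1
  refine integral_congr_ae (h.mono fun x hx => ?_)
  show ρ' x ^ (5/3 : ℝ) = sol z R 1 x ^ (5/3 : ℝ)
  rw [hx]

lemma K_eq {z : Fin k → ℝ} {R : Fin k → R3} (hz : ∀ j, 0 ≤ z j) : K R z = kf z R 1 := by
  have T := sol_spec one_pos hz R
  have hex : ∃ ρ, Minimiser R z ρ := ⟨_, min_of_tfs T⟩
  unfold K
  rw [dif_pos hex]
  exact K_of_min hz hex.choose_spec

lemma K_scale {z : Fin k → ℝ} {R : Fin k → R3} (hz : ∀ j, 0 ≤ z j) {t : ℝ} (ht : 0 < t) :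
    K R (t • z) = t ^ (5/3 : ℝ) * kf z R (t ^ (-(1/3) : ℝ)) := by
  have e0 : t • z = fun j => t * z j := rfl
  rw [e0, K_eq fun j => mul_nonneg ht.le (hz j)]
  have h := kf_scale ht (γ := t ^ (-(1/3) : ℝ)) (by positivity) hz R
  have e : t ^ (-(1/3) : ℝ) * t ^ (1/3 : ℝ) = 1 := by
    rw [← Real.rpow_add ht]; norm_num
  rw [e] at h
  exact h

/-- the radial derivative -/
lemma euler {z : Fin k → ℝ} {R : Fin k → R3} (hz : ∀ j, 0 ≤ z j) {γ d : ℝ} (hγ : 0 < γ)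
    (hd : HasDerivAt (kf z R) d γ) :
    ∃ D : ℝ, Euler R ((γ ^ 3)⁻¹ • z) D ∧
      Xt R ((γ ^ 3)⁻¹ • z) D = (γ ^ 6)⁻¹ * (2 * γ * kf z R γ + γ ^ 2 * d) := by
  set c : ℝ := (γ ^ 3)⁻¹ with hc
  have hc0 : 0 < c := by positivity
  have pw : ∀ p : ℝ, c ^ p = γ ^ (-3 * p) := by
    intro p
    rw [hc, ← Real.rpow_natCast, ← Real.rpow_neg hγ.le, ← Real.rpow_mul hγ.le]
    congr 1
  have p1 : c ^ (-(1/3) : ℝ) = γ := by rw [pw]; norm_num
  have p5 : c ^ (5/3 : ℝ) = (γ ^ 5)⁻¹ := by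
    rw [pw, ← Real.rpow_natCast, ← Real.rpow_neg hγ.le]; norm_num
  have p2 : c ^ (5/3 - 1 : ℝ) = (γ ^ 2)⁻¹ := by
    rw [pw, ← Real.rpow_natCast, ← Real.rpow_neg hγ.le]; norm_num
  have p4 : c ^ (-(1/3) - 1 : ℝ) = γ ^ 4 := by
    rw [pw, ← Real.rpow_natCast]; norm_num
  have hK : K R (c • z) = (γ ^ 5)⁻¹ * kf z R γ := by rw [K_scale hz hc0, p1, p5]
  have hD : HasDerivAt (fun t : ℝ => K R (t • (c • z)))
      ((γ ^ 5)⁻¹ * (5/3 * kf z R γ - 1/3 * γ * d)) 1 := by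
    have e1 : (fun t : ℝ => K R (t • (c • z))) =ᶠ[𝓝 1]
        fun t => (t * c) ^ (5/3 : ℝ) * kf z R ((t * c) ^ (-(1/3) : ℝ)) := by
      filter_upwards [lt_mem_nhds (zero_lt_one (α := ℝ))] with t ht
      rw [smul_smul, K_scale hz (by positivity)]
    refine HasDerivAt.congr_of_eventuallyEq ?_ e1
    have u : HasDerivAt (fun t : ℝ => t * c) c 1 := by
      simpa using (hasDerivAt_id (1:ℝ)).mul_const c
    have hne : (1:ℝ) * c ≠ 0 := by rw [one_mul]; exact hc0.ne'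
    have u5 := u.rpow_const (p := 5/3) (Or.inl hne)
    have u1 := u.rpow_const (p := -(1/3)) (Or.inl hne)
    rw [one_mul] at u5 u1
    have hd' : HasDerivAt (kf z R) d ((1 * c) ^ (-(1/3) : ℝ)) := by rw [one_mul, p1]; exact hd
    have u2 := HasDerivAt.comp (1:ℝ) hd' u1
    have u3 := u5.mul u2
    refine HasDerivAt.congr_deriv u3 ?_
    simp only [Function.comp, one_mul]
    rw [p1, p2, p4, p5, hc]
    field_simp
    ring
  refine ⟨_, ⟨hD, fun L hL => ?_⟩, ?_⟩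
  · -- the chain rule within the orthant
    have h1 : HasDerivAt (fun t : ℝ => t • (c • z)) (c • z) 1 := by
      simpa using (hasDerivAt_id (1:ℝ)).smul_const (c • z)
    have h2 : HasDerivWithinAt (fun t : ℝ => t • (c • z)) (c • z) (Ioi 0) 1 :=
      h1.hasDerivWithinAt
    have hmaps : MapsTo (fun t : ℝ => t • (c • z)) (Ioi 0) (orthant k) := by
      intro t ht i
      have ht' : (0:ℝ) < t := ht
      show 0 ≤ t * (c * z i)
      exact mul_nonneg ht'.le (mul_nonneg hc0.le (hz i))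
    have hL' : HasFDerivWithinAt (K R) L (orthant k) ((fun t : ℝ => t • (c • z)) 1) := by
      simpa using hL
    have h3 := hL'.comp_hasDerivWithinAt (1:ℝ) h2 hmaps
    have h4 : HasDerivAt (fun t : ℝ => K R (t • (c • z))) (L (c • z)) 1 :=
      h3.hasDerivAt (Ioi_mem_nhds one_pos)
    exact h4.unique hD
  · unfold Xt
    rw [hK]
    field_simp
    ring

lemma Rc_inj {ε : ℝ} {q : R3} (hq : ‖q‖ = 1) (h0 : 0 < ε) (h1 : ε < 1) :
    Function.Injective (Rc ε q) := by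
  have hq0 : q ≠ 0 := by
    intro h; rw [h, norm_zero] at hq; exact zero_ne_one hq
  have key : ∀ a b : ℝ, a • q = b • q → a = b := fun a b h => smul_left_injective ℝ hq0 h
  have e : ∀ i, Rc ε q i = (![0, 1, ε, 1 + ε] : Fin 4 → ℝ) i • q := by
    intro i; fin_cases i <;> simp [Rc]
  intro i j hij
  rw [e, e] at hij
  have h2 := key _ _ hij
  fin_cases i <;> fin_cases j <;> simp at h2 ⊢ <;> linarith

/-- **Disproof of Q1.**

(1) For all `k`, positions `R` and charges `z ≥ 0` the neutral problem has a minimiser, and every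
minimiser has kinetic energy `K(z)`.

(2) For every unit vector `q` and every `δ > 0` there are `0 < ε < δ` and `c > 0` such that for the
four distinct positions `0, q, εq, (1+ε)q` and the charges `z1 = (c,c,0,0)`, `z2 = (0,0,c,c)`
(disjoint supports): the numbers `∑ z_i K_i` exist at `z1`, `z2`, `z1 + z2` in the sense of `Euler`,
and `X̃(z1 + z2) < X̃(z1) + X̃(z2)`.  If moreover `K` is differentiable within `ℝ_+^4` at every point
of `ℝ_+^4` (part of the known fact that `K` is `C¹`), then `X̃` is not weakly superadditive. -/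
theorem result :
    (∀ (k : ℕ) (R : Fin k → R3) (z : Fin k → ℝ), (∀ j, 0 ≤ z j) →
      (∃ ρ, Minimiser R z ρ) ∧ ∀ ρ, Minimiser R z ρ → 3/5 * ∫ x, ρ x ^ (5/3 : ℝ) = K R z) ∧
    (∀ (q : R3) (δ : ℝ), ‖q‖ = 1 → 0 < δ → ∃ ε c : ℝ, 0 < ε ∧ ε < δ ∧ 0 < c ∧
      Function.Injective (Rc ε q) ∧
      (∃ d1 d2 d12 : ℝ, Euler (Rc ε q) ![c, c, 0, 0] d1 ∧ Euler (Rc ε q) ![0, 0, c, c] d2 ∧
        Euler (Rc ε q) (![c, c, 0, 0] + ![0, 0, c, c]) d12 ∧
        Xt (Rc ε q) (![c, c, 0, 0] + ![0, 0, c, c]) d12 <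
          Xt (Rc ε q) ![c, c, 0, 0] d1 + Xt (Rc ε q) ![0, 0, c, c] d2) ∧
      ((∀ z ∈ orthant 4, DifferentiableWithinAt ℝ (K (Rc ε q)) (orthant 4) z) →
        ¬ WSA (Xtilde (Rc ε q)))) := by
  constructor
  · intro k R z hz
    refine ⟨⟨_, min_of_tfs (sol_spec one_pos hz R)⟩, fun ρ h => ?_⟩
    rw [K_eq hz]; exact K_of_min hz h
  · intro q δ hq hδ
    obtain ⟨ε, hε, hεδ, hce⟩ := exists_ce hq (δ := min δ 1) (by positivity)
    have hR : R4 ε q = Rc ε q := rfl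
    rw [hR] at hce
    unfold NoC at hce
    push Not at hce
    obtain ⟨γ, hγ, dA, dB, dC, hA, hB, hC, hlt⟩ := hce
    obtain ⟨DA, eA, xA⟩ := euler zA_nonneg hγ hA
    obtain ⟨DB, eB, xB⟩ := euler zB_nonneg hγ hB
    obtain ⟨DC, eC, xC⟩ := euler zC_nonneg hγ hC
    set c : ℝ := (γ ^ 3)⁻¹ with hc
    have hc0 : 0 < c := by positivity
    have vA : c • zA = ![c, c, 0, 0] := by
      funext i; fin_cases i <;> simp [zA]
    have vB : c • zB = ![0, 0, c, c] := by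
      funext i; fin_cases i <;> simp [zB]
    have vC : c • zC = ![c, c, 0, 0] + ![0, 0, c, c] := by
      funext i; fin_cases i <;> simp [zC]
    rw [vA] at eA xA
    rw [vB] at eB xB
    rw [vC] at eC xC
    have hmain : Xt (Rc ε q) (![c, c, 0, 0] + ![0, 0, c, c]) DC <
          Xt (Rc ε q) ![c, c, 0, 0] DA + Xt (Rc ε q) ![0, 0, c, c] DB := by
      rw [xA, xB, xC, ← mul_add]
      exact mul_lt_mul_of_pos_left hlt (by positivity)
    have oA : ![c, c, 0, 0] ∈ orthant 4 := by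
      intro i; fin_cases i <;> simp [hc0.le]
    have oB : ![0, 0, c, c] ∈ orthant 4 := by
      intro i; fin_cases i <;> simp [hc0.le]
    have oC : ![c, c, 0, 0] + ![0, 0, c, c] ∈ orthant 4 := by
      intro i; fin_cases i <;> simp [hc0.le]
    refine ⟨ε, c, hε, hεδ.trans_le (min_le_left _ _), hc0,
      Rc_inj hq hε (hεδ.trans_le (min_le_right _ _)), ⟨DA, DB, DC, eA, eB, eC, hmain⟩, ?_⟩
    intro hdiff hW
    have h1 := hW _ oA _ oB (by intro i; fin_cases i <;> simp)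
    unfold Xtilde at h1
    rw [eA.2 _ (hdiff _ oA).hasFDerivWithinAt, eB.2 _ (hdiff _ oB).hasFDerivWithinAt,
      eC.2 _ (hdiff _ oC).hasFDerivWithinAt] at h1
    linarith

end Pool.Agent.Results.MP_f2f621_mp.NotWSA
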